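import Pool.Agent.W_MP_a18a3c_p66.Defs

/-!
The average load and the pigeonhole bounds are lower bounds for the optimal makespan.
-/

namespace MP_a18a3c_p66

open MP_a18a3c_h2

variable {m : ℕ}

lemma opt_nonneg (hm : 0 < m) {h : List ℝ} (hh : ∀ p ∈ h, 0 ≤ p) : 0 ≤ opt m h :=
  le_opt hm (fun f => ⟨⟨0, hm⟩, offLoad_nonneg hh f _⟩)

lemma mem_sorted {h : List ℝ} {p : ℝ} : p ∈ sorted h ↔ p ∈ h := List.mem_insertionSort _

/-- The optimal makespan of the sorted list is at most that of the list. -/
lemma opt_sorted_le (hm : 0 < m) {h : List ℝ} (hh : ∀ p ∈ h, 0 ≤ p) :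
    opt m (sorted h) ≤ opt m h := by
  classical
  have : Nonempty (Fin m) := ⟨⟨0, hm⟩⟩
  have key : ∀ f : Fin h.length → Fin m, opt m (sorted h) ≤ ⨆ i : Fin m, offLoad h f i := by
    intro f
    let B : Fin m → Multiset ℝ := fun i =>
      ∑ j : Fin h.length, if f j = i then {h.get j} else 0
    have hB : ∑ i, B i = (h : Multiset ℝ) := by
      have e1 : ∑ i, B i = ∑ j : Fin h.length, ({h.get j} : Multiset ℝ) := by
        change ∑ i, ∑ j : Fin h.length, (if f j = i then ({h.get j} : Multiset ℝ) else 0) = _
        rw [Finset.sum_comm]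
        apply Finset.sum_congr rfl
        intro j _
        simp
      rw [e1]
      have e2 : ∀ l : List ℝ, ∑ j : Fin l.length, ({l.get j} : Multiset ℝ) = (l : Multiset ℝ) := by
        intro l
        induction l with
        | nil => rfl
        | cons a l ih =>
          have e3 : ∑ j : Fin (a :: l).length, ({(a :: l).get j} : Multiset ℝ)
              = {a} + ∑ j : Fin l.length, ({l.get j} : Multiset ℝ) :=
            Fin.sum_univ_succ (n := l.length) _
          rw [e3, ih, Multiset.singleton_add, Multiset.cons_coe]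
      exact e2 h
    have hperm : (sorted h).Perm h := List.perm_insertionSort _ _
    have hle : ((sorted h : List ℝ) : Multiset ℝ) ≤ ∑ i, B i := by
      rw [hB]
      exact le_of_eq (Multiset.coe_eq_coe.mpr hperm)
    have hmem : ∀ i, ∀ p ∈ B i, 0 ≤ p := by
      intro i p hp
      change p ∈ ∑ j : Fin h.length, (if f j = i then ({h.get j} : Multiset ℝ) else 0) at hp
      rw [Multiset.mem_sum] at hp
      obtain ⟨j, -, hj⟩ := hp
      split_ifs at hj
      · rw [Multiset.mem_singleton] at hj
        rw [hj]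
        exact hh _ (List.get_mem h j)
      · simp at hj
    obtain ⟨g, hg⟩ := exists_assign (sorted h) B hle hmem
    apply opt_le_of_assign hm g
    intro i
    refine le_trans (hg i) ?_
    refine le_trans (le_of_eq ?_) (le_ciSup (bdd_off h f) i)
    change (∑ j : Fin h.length, (if f j = i then ({h.get j} : Multiset ℝ) else 0)).sum = _
    unfold offLoad
    rw [← Multiset.coe_sumAddMonoidHom, map_sum]
    apply Finset.sum_congr rfl
    intro j _
    split_ifs <;> simp
  unfold opt at key ⊢
  exact le_ciInf key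

/-- The sum of a nonincreasing nonnegative sequence over at least `k` places below `n + 1` is at
least the sum over the last `k` places. -/
lemma low {a : ℕ → ℝ} (ha : Antitone a) (h0 : ∀ i, 0 ≤ a i) : ∀ (k n : ℕ) (U : Finset ℕ),
    (∀ u ∈ U, u ≤ n) → k ≤ U.card → ∑ i ∈ Finset.range k, a (n - i) ≤ ∑ u ∈ U, a u := by
  intro k
  induction k with
  | zero =>
    intro n U _ _
    simpa using Finset.sum_nonneg (fun u _ => h0 u)
  | succ k ih =>
    intro n U hU hk
    have hne : U.Nonempty := Finset.card_pos.mp (by omega)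
    have hu := U.max'_mem hne
    set u := U.max' hne with hu'
    have h1 := ih (n - 1) (U.erase u) (by
      intro v hv
      have h2 := Finset.mem_of_mem_erase hv
      have h3 : v ≠ u := Finset.ne_of_mem_erase hv
      have h4 : v ≤ u := U.le_max' v h2
      have h5 := hU u hu
      omega) (by rw [Finset.card_erase_of_mem hu]; omega)
    rw [Finset.sum_range_succ', ← Finset.add_sum_erase U a hu]
    have h6 : ∑ i ∈ Finset.range k, a (n - (i + 1)) = ∑ i ∈ Finset.range k, a (n - 1 - i) := by
      apply Finset.sum_congr rfl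
      intro i _
      congr 1
      omega
    rw [h6]
    have h7 : a (n - 0) ≤ a u := ha (by simpa using hU u hu)
    linarith

lemma antitone_getD {s : List ℝ} (hs : s.Pairwise (· ≥ ·)) (h0 : ∀ p ∈ s, 0 ≤ p) :
    Antitone (fun i => s.getD i 0) := by
  intro i j hij
  change s.getD j 0 ≤ s.getD i 0
  rcases lt_or_ge j s.length with hj | hj
  · have hi : i < s.length := lt_of_le_of_lt hij hj
    rw [List.getD_eq_getElem _ _ hj, List.getD_eq_getElem _ _ hi]
    rcases hij.eq_or_lt with h | h
    · subst h; exact le_rfl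
    · exact List.pairwise_iff_getElem.mp hs i j hi hj h
  · rw [List.getD_eq_default _ _ hj]
    rcases lt_or_ge i s.length with hi | hi
    · rw [List.getD_eq_getElem _ _ hi]
      exact h0 _ (List.getElem_mem hi)
    · rw [List.getD_eq_default _ _ hi]

lemma getD_nonneg {s : List ℝ} (h0 : ∀ p ∈ s, 0 ≤ p) (i : ℕ) : 0 ≤ s.getD i 0 := by
  rcases lt_or_ge i s.length with h1 | h1
  · rw [List.getD_eq_getElem _ _ h1]
    exact h0 _ (List.getElem_mem h1)
  · rw [List.getD_eq_default _ _ h1]

/-- Every pigeonhole bound is a lower bound for the optimal makespan. -/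
theorem pigeon_le_opt (hm : 0 < m) {h : List ℝ} (hh : ∀ p ∈ h, 0 ≤ p) (k : ℕ) :
    pigeon m k h ≤ opt m h := by
  classical
  rcases Nat.eq_zero_or_pos k with rfl | hk
  · unfold pigeon
    simpa using opt_nonneg hm hh
  refine le_trans ?_ (opt_sorted_le hm hh)
  unfold pigeon
  set s := sorted h with hs'
  have hs : s.Pairwise (· ≥ ·) := List.pairwise_insertionSort _ _
  have h0 : ∀ p ∈ s, 0 ≤ p := fun p hp => hh p (mem_sorted.mp hp)
  apply le_opt hm
  intro g
  let g' : Fin ((k - 1) * m + 1) → Fin m := fun j =>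
    if hj : (j : ℕ) < s.length then g ⟨j, hj⟩ else ⟨0, hm⟩
  obtain ⟨y, hy⟩ := Fintype.exists_lt_card_fiber_of_mul_lt_card (n := k - 1) g' (by
    rw [Fintype.card_fin, Fintype.card_fin, mul_comm]
    omega)
  refine ⟨y, ?_⟩
  set U := Finset.univ.filter (fun x => g' x = y) with hU
  have h1 := low (antitone_getD hs h0) (getD_nonneg h0) k ((k - 1) * m) (U.map Fin.valEmbedding)
    (by
      intro u hu
      rw [Finset.mem_map] at hu
      obtain ⟨x, -, rfl⟩ := hu
      have := x.2
      simp only [Fin.valEmbedding_apply]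
      omega) (by rw [Finset.card_map]; omega)
  refine le_trans h1 ?_
  rw [Finset.sum_map]
  simp only [Fin.valEmbedding_apply]
  let F : ℕ → ℝ := fun j => if hj : j < s.length then (if g ⟨j, hj⟩ = y then s.get ⟨j, hj⟩ else 0)
    else 0
  have hF0 : ∀ j, 0 ≤ F j := by
    intro j
    change 0 ≤ (if hj : j < s.length then (if g ⟨j, hj⟩ = y then s.get ⟨j, hj⟩ else 0) else 0)
    split_ifs
    · exact h0 _ (List.get_mem s _)
    · exact le_rfl
    · exact le_rfl
  have h2 : ∑ x ∈ U, s.getD (x : ℕ) 0 = ∑ x ∈ U, F x := by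
    apply Finset.sum_congr rfl
    intro x hx
    rw [hU, Finset.mem_filter] at hx
    have h3 := hx.2
    change (if hj : (x : ℕ) < s.length then g ⟨x, hj⟩ else ⟨0, hm⟩) = y at h3
    change _ = (if hj : (x : ℕ) < s.length then (if g ⟨x, hj⟩ = y then s.get ⟨x, hj⟩ else 0)
      else 0)
    by_cases hj : (x : ℕ) < s.length
    · rw [dif_pos hj] at h3
      rw [dif_pos hj, if_pos h3, List.getD_eq_getElem _ _ hj]
      rfl
    · rw [dif_neg hj, List.getD_eq_default _ _ (not_lt.mp hj)]
  have h4 : offLoad s g y = ∑ j ∈ Finset.range s.length, F j := by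
    unfold offLoad
    rw [Finset.sum_range]
    apply Finset.sum_congr rfl
    intro j _
    change _ = (if hj : (j : ℕ) < s.length then (if g ⟨j, hj⟩ = y then s.get ⟨j, hj⟩ else 0)
      else 0)
    rw [dif_pos j.2]
  rw [h2, h4]
  calc ∑ x ∈ U, F x ≤ ∑ x : Fin ((k - 1) * m + 1), F x :=
        Finset.sum_le_sum_of_subset_of_nonneg (Finset.subset_univ _) (fun x _ _ => hF0 x)
    _ = ∑ j ∈ Finset.range ((k - 1) * m + 1), F j := (Finset.sum_range _).symm
    _ ≤ ∑ j ∈ Finset.range (max ((k - 1) * m + 1) s.length), F j :=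
        Finset.sum_le_sum_of_subset_of_nonneg
          (Finset.range_subset_range.mpr (le_max_left _ _)) (fun x _ _ => hF0 x)
    _ = ∑ j ∈ Finset.range s.length, F j := by
        symm
        apply Finset.sum_subset (Finset.range_subset_range.mpr (le_max_right _ _))
        intro j _ hj
        rw [Finset.mem_range] at hj
        change (if hj : j < s.length then (if g ⟨j, hj⟩ = y then s.get ⟨j, hj⟩ else 0) else 0) = 0
        rw [dif_neg hj]

/-- The average load is a lower bound for the optimal makespan. -/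
theorem average_le_opt (hm : 0 < m) (h : List ℝ) : h.sum / m ≤ opt m h := by
  have hm' : (0 : ℝ) < m := by exact_mod_cast hm
  rw [div_le_iff₀ hm', mul_comm]
  exact sum_le_opt hm h

end MP_a18a3c_p66
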