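import Pool.Agent.W_MP_a18a3c_h2.Adv

/-!
The classical lower bounds on the optimal makespan: the average load and the pigeonhole bounds.
-/

namespace MP_a18a3c_p66

open MP_a18a3c_h2

/-- The sizes of the jobs of `h` in nonincreasing order. -/
noncomputable def sorted (h : List ℝ) : List ℝ := h.insertionSort (· ≥ ·)

/-- The pigeonhole bound number `k` for the instance `h` on `m` machines: the total size of the
`k` smallest among the `(k - 1) m + 1` largest jobs (some machine gets `k` of the
`(k - 1) m + 1` largest jobs).  A missing job counts as a job of size `0`. -/
noncomputable def pigeon (m k : ℕ) (h : List ℝ) : ℝ :=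
  ∑ i ∈ Finset.range k, (sorted h).getD ((k - 1) * m - i) 0

/-- On every instance of nonnegative job sizes the makespan of the algorithm `A` is at most `c`
times one of the classical lower bounds on the optimal makespan: the average load or one of the
pigeonhole bounds. -/
def IsCertified {m : ℕ} (A : Alg m) (c : ℝ) : Prop :=
  ∀ h : List ℝ, (∀ p ∈ h, 0 ≤ p) →
    makespan A h ≤ c * (h.sum / m) ∨ ∃ k : ℕ, makespan A h ≤ c * pigeon m k h

end MP_a18a3c_p66
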