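import Pool.Agent.W_MP_a18a3c_p66.Mono

/-!
The adversary against an algorithm with a guarantee relative to the classical lower bounds.
-/

namespace MP_a18a3c_p66

open MP_a18a3c_h2

variable {m : ℕ}

lemma inv_step' {A : Alg m} {c : ℝ} {S : ℕ → ℝ} {h : List ℝ} {φ φ' : ℕ} (hφ : φ ≤ φ')
    (hI : Inv A S h φ) {s M : ℝ} (_hs : 0 ≤ s) (hmk : makespan A (s :: h) < c * M)
    (hblock : c * M ≤ S φ' + s) (hmono : ∀ k < φ', S (k + 1) ≤ S k + s) :
    Inv A S (s :: h) φ' := by
  classical
  obtain ⟨n, hn1, hn2, hn3⟩ := hI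
  set i0 := A h s with hi0
  have hload : load A (s :: h) i0 = load A h i0 + s := by
    rw [load_cons]
    simp [hi0]
  have hle : load A (s :: h) i0 < c * M := lt_of_le_of_lt (load_le_makespan A _ i0) hmk
  have hne : n i0 ≠ φ' := by
    intro heq
    have := hn3 i0
    rw [heq] at this
    linarith
  have hnlt : n i0 < φ' := lt_of_le_of_ne (le_trans (hn2 i0) hφ) hne
  refine ⟨Function.update n i0 (n i0 + 1), ?_, ?_, ?_⟩
  · rw [← Finset.add_sum_erase Finset.univ _ (Finset.mem_univ i0), Function.update_self]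
    have h1 : ∑ i ∈ Finset.univ.erase i0, Function.update n i0 (n i0 + 1) i
        = ∑ i ∈ Finset.univ.erase i0, n i := by
      apply Finset.sum_congr rfl
      intro i hi
      rw [Function.update_of_ne (Finset.ne_of_mem_erase hi)]
    rw [h1]
    have h2 := Finset.add_sum_erase Finset.univ n (Finset.mem_univ i0)
    rw [hn1] at h2
    rw [List.length_cons]
    omega
  · intro i
    by_cases hi : i = i0
    · subst hi
      rw [Function.update_self]
      exact hnlt
    · rw [Function.update_of_ne hi]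
      exact le_trans (hn2 i) hφ
  · intro i
    by_cases hi : i = i0
    · subst hi
      rw [Function.update_self, hload]
      have := hn3 i0
      have := hmono _ hnlt
      linarith
    · rw [Function.update_of_ne hi, load_cons]
      have : ¬ (A h s = i) := fun hh => hi (by rw [hi0]; exact hh.symm)
      rw [if_neg this]
      have := hn3 i
      linarith

/-! ### Sums -/

lemma sum_succ (t : ℕ) : (hist m (t + 1)).sum = sz m t + (hist m t).sum := by
  rw [hist, List.sum_cons]

lemma sum_phase1 (t : ℕ) (h : t ≤ m) : (hist m t).sum = t * a1 := by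
  induction t with
  | zero => simp [hist]
  | succ t ih =>
    rw [sum_succ, ih (by omega), sz1 (by omega)]
    push_cast
    ring

lemma sum_phase2a (k : ℕ) (h : k ≤ nu m) : (hist m (m + k)).sum = m * a1 + k * a2 := by
  induction k with
  | zero => simpa using sum_phase1 (m := m) m le_rfl
  | succ k ih =>
    rw [← add_assoc, sum_succ, ih (by omega), sz2 (by omega) (by omega)]
    push_cast
    ring

/-- The average after the constant part of phase 2. -/
lemma avg_phase2a (hm : 10 ^ 5 ≤ m) (k : ℕ) (h : k ≤ nu m) :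
    cc * ((hist m (m + k)).sum / m) ≤ 2089 / 5000 + a2 := by
  have hm' := mreal hm
  rw [sum_phase2a k h]
  have h1 : (k : ℝ) ≤ 92159 / 100000 * m := by
    have : (k : ℝ) ≤ nu m := by exact_mod_cast h
    have := nu_real (m := m)
    linarith
  have h2 : (m * a1 + k * a2) / (m : ℝ) ≤ a1 + 92159 / 100000 * a2 := by
    rw [div_le_iff₀ (by linarith)]
    have := mul_le_mul_of_nonneg_right h1 a2_pos.le
    nlinarith
  have h3 : (0 : ℝ) ≤ cc := by unfold cc; norm_num
  refine le_trans (mul_le_mul_of_nonneg_left h2 h3) ?_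
  unfold cc a1 a2
  norm_num

lemma geo_step (hm : 10 ^ 5 ≤ m) {B s F : ℝ} (h : cc * (F / m) ≤ B + s) :
    cc * ((s * rr m + F) / m) ≤ B + s * rr m := by
  have hm' := mreal hm
  have hr := rr_rec hm
  have e : cc * ((s * rr m + F) / m) = cc * (F / m) + s * (rr m * (cc / m)) := by
    field_simp
    ring
  rw [e, ← hr]
  linarith

lemma avg_phase2b (hm : 10 ^ 5 ≤ m) (k : ℕ) (h : k ≤ m - nu m) :
    cc * ((hist m (m + nu m + k)).sum / m) ≤ 2089 / 5000 + a2 * rr m ^ k := by
  induction k with
  | zero =>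
    have := avg_phase2a hm (nu m) le_rfl
    simpa using this
  | succ k ih =>
    have hn := nu_le (m := m)
    rw [← add_assoc, sum_succ, sz3 (by omega) (by omega)]
    have e : m + nu m + k + 1 - (m + nu m) = k + 1 := by omega
    rw [e, pow_succ, ← mul_assoc]
    exact geo_step hm (ih (by omega))

lemma sum_phase3a (k : ℕ) (h : k ≤ nu' m) :
    (hist m (2 * m + k)).sum = (hist m (2 * m)).sum + k * (1 / 2) := by
  induction k with
  | zero => simp
  | succ k ih =>
    rw [← add_assoc, sum_succ, ih (by omega), sz4 (by omega) (by omega)]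
    push_cast
    ring

lemma avg_phase3a (hm : 10 ^ 5 ≤ m) (k : ℕ) (h : k ≤ nu' m) :
    cc * ((hist m (2 * m + k)).sum / m) ≤ 4589 / 5000 + 1 / 2 := by
  have hm' := mreal hm
  have hn := nu_le (m := m)
  rw [sum_phase3a k h]
  have h0 := avg_phase2b hm (m - nu m) le_rfl
  have e : m + nu m + (m - nu m) = 2 * m := by omega
  rw [e] at h0
  have h1 := grow2 hm (m - nu m) le_rfl
  have h2 : (k : ℝ) ≤ 63882 / 100000 * m := by
    have : (k : ℝ) ≤ nu' m := by exact_mod_cast h
    have := nu'_real (m := m)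
    linarith
  have h3 : (k : ℝ) / m ≤ 63882 / 100000 := by
    rw [div_le_iff₀ (by linarith)]
    exact h2
  have e2 : cc * (((hist m (2 * m)).sum + k * (1 / 2)) / m)
      = cc * ((hist m (2 * m)).sum / m) + cc / 2 * (k / m) := by
    field_simp
  rw [e2]
  have h4 : a2 * rr m ^ (m - nu m) ≤ a2 * 1.1623 := mul_le_mul_of_nonneg_left h1 a2_pos.le
  have h5 : (0 : ℝ) ≤ cc / 2 := by unfold cc; norm_num
  have h6 := mul_le_mul_of_nonneg_left h3 h5
  have h7 : 2089 / 5000 + a2 * 1.1623 + cc / 2 * (63882 / 100000) ≤ 4589 / 5000 + 1 / 2 := by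
    unfold cc a2; norm_num
  linarith

lemma avg_phase3b (hm : 10 ^ 5 ≤ m) (k : ℕ) (h : k ≤ m - nu' m) :
    cc * ((hist m (2 * m + nu' m + k)).sum / m) ≤ 4589 / 5000 + 1 / 2 * rr m ^ k := by
  induction k with
  | zero =>
    have := avg_phase3a hm (nu' m) le_rfl
    simpa using this
  | succ k ih =>
    have hn := nu_le (m := m)
    have hn' := nu'_le_nu (m := m)
    rw [← add_assoc, sum_succ, sz5 (by omega) (by omega)]
    have e : 2 * m + nu' m + k + 1 - (2 * m + nu' m) = k + 1 := by omega
    rw [e, pow_succ, ← mul_assoc]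
    exact geo_step hm (ih (by omega))

/-! ### The phases -/

/-- The guaranteed load of a machine with `n` jobs. -/
noncomputable def SS : ℕ → ℝ
  | 0 => 0
  | 1 => a1
  | 2 => 2089 / 5000
  | _ => 4589 / 5000

/-- The value which the classical bounds do not exceed at job `t` in phase `φ`. -/
noncomputable def MM (m φ t : ℕ) : ℝ := (SS φ + sz m t) / cc

lemma cc_pos : (0 : ℝ) < cc := by unfold cc; norm_num

lemma cc_mul_MM (φ t : ℕ) : cc * MM m φ t = SS φ + sz m t := by
  unfold MM
  exact mul_div_cancel₀ _ cc_pos.ne'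

lemma le_MM {φ t : ℕ} {x : ℝ} (h : cc * x ≤ SS φ + sz m t) : x ≤ MM m φ t := by
  unfold MM
  rw [le_div_iff₀ cc_pos]
  linarith

/-! ### The average -/

lemma avg1 (hm : 10 ^ 5 ≤ m) {t : ℕ} (h : t < m) : (hist m (t + 1)).sum / m ≤ MM m 1 t := by
  have hm' := mreal hm
  have ha := a1_pos
  have hc : cc ≤ 2 := by unfold cc; norm_num
  apply le_MM
  rw [sum_phase1 _ (by omega), sz1 h]
  have h1 : (((t + 1 : ℕ) : ℝ) * a1) / m ≤ a1 := by
    rw [div_le_iff₀ (by linarith)]
    have : ((t + 1 : ℕ) : ℝ) ≤ m := by exact_mod_cast h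
    nlinarith
  have h2 := mul_le_mul_of_nonneg_left h1 cc_pos.le
  have : SS 1 = a1 := rfl
  rw [this]
  nlinarith

lemma avg2 (hm : 10 ^ 5 ≤ m) {t : ℕ} (h : m ≤ t) (h' : t < 2 * m) :
    (hist m (t + 1)).sum / m ≤ MM m 2 t := by
  have hS : SS 2 = 2089 / 5000 := rfl
  have hn := nu_le (m := m)
  apply le_MM
  rw [hS]
  rcases lt_or_ge t (m + nu m) with h2 | h2
  · have h3 := avg_phase2a hm (t + 1 - m) (by omega)
    have e : m + (t + 1 - m) = t + 1 := by omega
    rw [e] at h3
    rw [sz2 h h2]
    exact h3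
  · have h3 := avg_phase2b hm (t + 1 - (m + nu m)) (by omega)
    have e : m + nu m + (t + 1 - (m + nu m)) = t + 1 := by omega
    rw [e] at h3
    rw [sz3 h2 h']
    exact h3

lemma avg3 (hm : 10 ^ 5 ≤ m) {t : ℕ} (h : 2 * m ≤ t) (h' : t ≤ 3 * m) :
    (hist m (t + 1)).sum / m ≤ MM m 3 t := by
  have hm' := mreal hm
  have hS : SS 3 = 4589 / 5000 := rfl
  have hn := nu_le (m := m)
  have hn' := nu'_le_nu (m := m)
  have hhalf := half_le_sz hm h
  apply le_MM
  rw [hS]
  rcases lt_or_ge t (2 * m + nu' m) with h2 | h2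
  · have h3 := avg_phase3a hm (t + 1 - 2 * m) (by omega)
    have e : 2 * m + (t + 1 - 2 * m) = t + 1 := by omega
    rw [e] at h3
    linarith
  rcases lt_or_ge t (3 * m) with h4 | h4
  · have h3 := avg_phase3b hm (t + 1 - (2 * m + nu' m)) (by omega)
    have e : 2 * m + nu' m + (t + 1 - (2 * m + nu' m)) = t + 1 := by omega
    rw [e] at h3
    rw [sz5 h2 h4]
    exact h3
  · have ht : t = 3 * m := by omega
    have h3 := avg_phase3b hm (m - nu' m) le_rfl
    have e : 2 * m + nu' m + (m - nu' m) = 3 * m := by omega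
    rw [e] at h3
    rw [ht, sum_succ, sz6 le_rfl]
    have h5 := grow3 hm (m - nu' m) le_rfl
    have h6 := cdiv_le hm
    have e2 : cc * ((1 + (hist m (3 * m)).sum) / m)
        = cc * ((hist m (3 * m)).sum / m) + cc / m := by
      field_simp
      ring
    rw [e2]
    linarith

/-! ### The pigeonhole bounds -/

/-- The job at position `i` of the list of the first `t + 1` jobs. -/
noncomputable def gg (m t i : ℕ) : ℝ := (hist m (t + 1)).getD i 0

lemma gg_zero {t i : ℕ} (h : t < i) : gg m t i = 0 := hist_getD_zero _ _ (by omega)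

lemma gg_eq {t i : ℕ} (h : i ≤ t) : gg m t i = sz m (t - i) := by
  unfold gg
  rw [hist_getD _ _ (by omega)]
  congr 1

lemma gg_le_a1 {t i : ℕ} (h : t < i + m) : gg m t i ≤ a1 := by
  rcases lt_or_ge t i with h1 | h1
  · rw [gg_zero h1]; exact a1_pos.le
  · rw [gg_eq h1, sz1 (by omega)]

lemma gg_le_a2 (hm : 10 ^ 5 ≤ m) {t i : ℕ} (h : t < i + (m + nu m)) : gg m t i ≤ a2 := by
  rcases lt_or_ge t i with h1 | h1
  · rw [gg_zero h1]; exact a2_pos.le
  rcases lt_or_ge (t - i) m with h2 | h2
  · rw [gg_eq h1, sz1 h2]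
    unfold a1 a2; norm_num
  · rw [gg_eq h1, sz2 h2 (by omega)]

lemma gg_le_rho (hm : 10 ^ 5 ≤ m) {t i : ℕ} (h : t < i + 2 * m) : gg m t i ≤ a2 * 1.1623 := by
  rcases lt_or_ge t i with h1 | h1
  · rw [gg_zero h1]
    have := a2_pos
    positivity
  · rw [gg_eq h1]
    exact sz_le2 hm (by omega)

lemma pigeon_hist (hm : 10 ^ 5 ≤ m) (t k : ℕ) :
    pigeon m k (hist m (t + 1)) = ∑ i ∈ Finset.range k, gg m t ((k - 1) * m - i) := by
  unfold pigeon
  rw [sorted_hist hm]
  rfl

/-- Reduction to `k = 1, 2, 3, 4`. -/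
lemma pigeon_le (hm : 10 ^ 5 ≤ m) {t : ℕ} (ht : t ≤ 3 * m) {M : ℝ} (h1 : sz m t ≤ M)
    (h2 : gg m t m + gg m t (m - 1) ≤ M)
    (h3 : gg m t (2 * m) + gg m t (2 * m - 1) + gg m t (2 * m - 2) ≤ M)
    (h4 : gg m t (3 * m) + gg m t (3 * m - 1) + gg m t (3 * m - 2) + gg m t (3 * m - 3) ≤ M)
    (k : ℕ) : pigeon m k (hist m (t + 1)) ≤ M := by
  have hpos := sz_pos hm t
  rw [pigeon_hist hm]
  rcases lt_or_ge k 5 with hk | hk
  · interval_cases k
    · simp only [Finset.range_zero, Finset.sum_empty]
      linarith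
    · simp only [Finset.sum_range_one]
      norm_num
      rw [gg_eq (by omega)]
      simpa using h1
    · simp only [Finset.sum_range_succ, Finset.sum_range_zero, zero_add]
      norm_num
      exact h2
    · simp only [Finset.sum_range_succ, Finset.sum_range_zero, zero_add]
      norm_num
      exact h3
    · simp only [Finset.sum_range_succ, Finset.sum_range_zero, zero_add]
      norm_num
      exact h4
  · have hz : ∑ i ∈ Finset.range k, gg m t ((k - 1) * m - i) = 0 := by
      apply Finset.sum_eq_zero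
      intro i hi
      rw [Finset.mem_range] at hi
      apply gg_zero
      obtain ⟨j, rfl⟩ : ∃ j, k = j + 5 := ⟨k - 5, by omega⟩
      have e : j + 5 - 1 = j + 4 := by omega
      rw [e]
      have h5 : (j + 4) * m = j * m + 4 * m := by ring
      have h6 : j ≤ j * m := Nat.le_mul_of_pos_right j (by omega)
      omega
    rw [hz]
    linarith

lemma pig1 (hm : 10 ^ 5 ≤ m) {t : ℕ} (h : t < m) (k : ℕ) :
    pigeon m k (hist m (t + 1)) ≤ MM m 1 t := by
  have ha := a1_pos
  have hc : cc ≤ 2 := by unfold cc; norm_num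
  have hM : a1 ≤ MM m 1 t := by
    apply le_MM
    rw [sz1 h]
    have : SS 1 = a1 := rfl
    rw [this]
    nlinarith
  refine pigeon_le hm (by omega) ?_ ?_ ?_ ?_ k
  · rw [sz1 h]; exact hM
  · rw [gg_zero (by omega)]
    have := gg_le_a1 (m := m) (t := t) (i := m - 1) (by omega)
    linarith
  · rw [gg_zero (by omega), gg_zero (by omega), gg_zero (by omega)]
    linarith
  · rw [gg_zero (by omega), gg_zero (by omega), gg_zero (by omega), gg_zero (by omega)]
    linarith

lemma last2 (hm : 10 ^ 5 ≤ m) : a2 * 1.161 ≤ sz m (2 * m - 1) := by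
  have hm' := mreal hm
  have hn := nu_le (m := m)
  have hk : 7841 / 100000 * (m : ℝ) ≤ ((m - nu m : ℕ) : ℝ) := by
    have h : 7841 * m ≤ 100000 * (m - nu m) := by unfold nu; omega
    have h' : (7841 : ℝ) * m ≤ 100000 * ((m - nu m : ℕ) : ℝ) := by exact_mod_cast h
    linarith
  have hq := quad_le_pow hm (m - nu m) (7841 / 100000) (by norm_num) hk
  have hlt : nu m < m := by unfold nu; omega
  rw [sz3 (by omega) (by omega)]
  have e : 2 * m - 1 + 1 - (m + nu m) = m - nu m := by omega
  rw [e]
  apply mul_le_mul_of_nonneg_left _ a2_pos.le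
  refine le_trans ?_ hq
  unfold cc; norm_num

lemma pig2 (hm : 10 ^ 5 ≤ m) {t : ℕ} (h : m ≤ t) (h' : t < 2 * m) (k : ℕ) :
    pigeon m k (hist m (t + 1)) ≤ MM m 2 t := by
  have hS : SS 2 = 2089 / 5000 := rfl
  have hn := nu_le (m := m)
  have ha2 := a2_le_sz hm h
  have ha1 := a1_pos
  have hM : 4 * a1 ≤ MM m 2 t := by
    apply le_MM
    rw [hS]
    have : cc * (4 * a1) ≤ 2089 / 5000 + a2 := by unfold cc a1 a2; norm_num
    linarith
  refine pigeon_le hm (by omega) ?_ ?_ ?_ ?_ k
  · apply le_MM
    rw [hS]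
    have h3 := sz_le2 hm h'
    have h4 : (cc - 1) * (a2 * 1.1623) ≤ 2089 / 5000 := by unfold cc a2; norm_num
    have h5 : (0 : ℝ) ≤ cc - 1 := by unfold cc; norm_num
    have h6 := mul_le_mul_of_nonneg_left h3 h5
    linarith
  · have g1 := gg_le_a1 (m := m) (t := t) (i := m) (by omega)
    rcases lt_or_ge t (2 * m - 1) with h2 | h2
    · have g2 := gg_le_a1 (m := m) (t := t) (i := m - 1) (by omega)
      linarith
    · have ht : t = 2 * m - 1 := by omega
      have g2 := gg_le_a2 hm (t := t) (i := m - 1) (by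
        have : 0 < nu m := by unfold nu; omega
        omega)
      refine le_trans (add_le_add g1 g2) ?_
      apply le_MM
      rw [hS, ht]
      have h3 := last2 hm
      have h4 : cc * (a1 + a2) ≤ 2089 / 5000 + a2 * 1.161 := by unfold cc a1 a2; norm_num
      linarith
  · have g1 := gg_le_a1 (m := m) (t := t) (i := 2 * m) (by omega)
    have g2 := gg_le_a1 (m := m) (t := t) (i := 2 * m - 1) (by omega)
    have g3 := gg_le_a1 (m := m) (t := t) (i := 2 * m - 2) (by omega)
    linarith
  · have g1 := gg_le_a1 (m := m) (t := t) (i := 3 * m) (by omega)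
    have g2 := gg_le_a1 (m := m) (t := t) (i := 3 * m - 1) (by omega)
    have g3 := gg_le_a1 (m := m) (t := t) (i := 3 * m - 2) (by omega)
    have g4 := gg_le_a1 (m := m) (t := t) (i := 3 * m - 3) (by omega)
    linarith

lemma late3 (hm : 10 ^ 5 ≤ m) {t : ℕ} (h : 2 * m + nu m - 1 ≤ t) (h' : t < 3 * m) :
    0.77 ≤ sz m t := by
  have hm' := mreal hm
  have hn' := nu'_le_nu (m := m)
  have hlt : nu' m < nu m := by unfold nu nu'; omega
  rw [sz5 (by omega) h']
  have hr := one_le_rr hm
  have hk : 28276 / 100000 * (m : ℝ) ≤ ((nu m - nu' m : ℕ) : ℝ) := by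
    have h : 28276 * m ≤ 100000 * (nu m - nu' m) := by unfold nu nu'; omega
    have h' : (28276 : ℝ) * m ≤ 100000 * ((nu m - nu' m : ℕ) : ℝ) := by exact_mod_cast h
    linarith
  have hq := quad_le_pow hm (nu m - nu' m) (28276 / 100000) (by norm_num) hk
  have h2 : rr m ^ (nu m - nu' m) ≤ rr m ^ (t + 1 - (2 * m + nu' m)) :=
    pow_le_pow_right₀ hr (by omega)
  have h3 : (1.54 : ℝ) ≤ 1 + 28276 / 100000 * cc + (28276 / 100000 * cc) ^ 2 / 2 := by
    unfold cc; norm_num
  linarith

lemma last3 (hm : 10 ^ 5 ≤ m) : 0.96 ≤ sz m (3 * m - 1) := by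
  have hm' := mreal hm
  have hn' := nu'_le_nu (m := m)
  have hn := nu_le (m := m)
  have hk : 36118 / 100000 * (m : ℝ) ≤ ((m - nu' m : ℕ) : ℝ) := by
    have h : 36118 * m ≤ 100000 * (m - nu' m) := by unfold nu'; omega
    have h' : (36118 : ℝ) * m ≤ 100000 * ((m - nu' m : ℕ) : ℝ) := by exact_mod_cast h
    linarith
  have hq := quad_le_pow hm (m - nu' m) (36118 / 100000) (by norm_num) hk
  have hlt : nu' m < m := by unfold nu'; omega
  rw [sz5 (by omega) (by omega)]
  have e : 3 * m - 1 + 1 - (2 * m + nu' m) = m - nu' m := by omega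
  rw [e]
  have h3 : (1.92 : ℝ) ≤ 1 + 36118 / 100000 * cc + (36118 / 100000 * cc) ^ 2 / 2 := by
    unfold cc; norm_num
  linarith

lemma pig3 (hm : 10 ^ 5 ≤ m) {t : ℕ} (h : 2 * m ≤ t) (h' : t ≤ 3 * m) (k : ℕ) :
    pigeon m k (hist m (t + 1)) ≤ MM m 3 t := by
  have hS : SS 3 = 4589 / 5000 := rfl
  have hn := nu_le (m := m)
  have hn' := nu'_le_nu (m := m)
  have hnu' : 2 < nu' m := by unfold nu'; omega
  have hhalf := half_le_sz hm h
  have ha1 := a1_pos
  have hM : a1 * 4 ≤ MM m 3 t ∧ 2 * a2 ≤ MM m 3 t := by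
    constructor
    · apply le_MM
      rw [hS]
      have : cc * (a1 * 4) ≤ 4589 / 5000 + 1 / 2 := by unfold cc a1; norm_num
      linarith
    · apply le_MM
      rw [hS]
      have : cc * (2 * a2) ≤ 4589 / 5000 + 1 / 2 := by unfold cc a2; norm_num
      linarith
  refine pigeon_le hm h' ?_ ?_ ?_ ?_ k
  · apply le_MM
    rw [hS]
    have h3 := sz_le1 hm t
    have h5 : cc - 1 = 4589 / 5000 := by unfold cc; norm_num
    nlinarith
  · rcases lt_or_ge t (2 * m + nu m - 1) with h1 | h1
    · have g1 := gg_le_a2 hm (t := t) (i := m) (by omega)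
      have g2 := gg_le_a2 hm (t := t) (i := m - 1) (by omega)
      linarith [hM.2]
    rcases lt_or_ge t (3 * m - 1) with h2 | h2
    · have g1 := gg_le_rho hm (t := t) (i := m) (by omega)
      have g2 := gg_le_rho hm (t := t) (i := m - 1) (by omega)
      refine le_trans (add_le_add g1 g2) ?_
      apply le_MM
      rw [hS]
      have h3 := late3 hm h1 (by omega)
      have : cc * (a2 * 1.1623 + a2 * 1.1623) ≤ 4589 / 5000 + 0.77 := by
        unfold cc a2; norm_num
      linarith
    rcases lt_or_ge t (3 * m) with h3 | h3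
    · have ht : t = 3 * m - 1 := by omega
      have g1 := gg_le_rho hm (t := t) (i := m) (by omega)
      have g2 : gg m t (m - 1) = 1 / 2 := by
        rw [gg_eq (by omega)]
        exact sz4 (by omega) (by omega)
      rw [g2]
      refine le_trans (add_le_add_left g1 _) ?_
      apply le_MM
      rw [hS, ht]
      have h4 := last3 hm
      have : cc * (a2 * 1.1623 + 1 / 2) ≤ 4589 / 5000 + 0.96 := by
        unfold cc a2; norm_num
      linarith
    · have ht : t = 3 * m := by omega
      have g1 : gg m t m = 1 / 2 := by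
        rw [gg_eq (by omega)]
        exact sz4 (by omega) (by omega)
      have g2 : gg m t (m - 1) = 1 / 2 := by
        rw [gg_eq (by omega)]
        exact sz4 (by omega) (by omega)
      rw [g1, g2]
      apply le_MM
      rw [hS, ht, sz6 le_rfl]
      unfold cc; norm_num
  · rcases lt_or_ge t (3 * m - 2) with h1 | h1
    · have g1 := gg_le_a1 (m := m) (t := t) (i := 2 * m) (by omega)
      have g2 := gg_le_a1 (m := m) (t := t) (i := 2 * m - 1) (by omega)
      have g3 := gg_le_a1 (m := m) (t := t) (i := 2 * m - 2) (by omega)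
      linarith [hM.1]
    rcases lt_or_ge t (3 * m) with h3 | h3
    · have g1 := gg_le_a1 (m := m) (t := t) (i := 2 * m) (by omega)
      have g2 := gg_le_a2 hm (t := t) (i := 2 * m - 1) (by omega)
      have g3 := gg_le_a2 hm (t := t) (i := 2 * m - 2) (by omega)
      refine le_trans (add_le_add (add_le_add g1 g2) g3) ?_
      apply le_MM
      rw [hS]
      have h4 := late3 hm (t := t) (by
        have : nu m < m - 1 := by unfold nu; omega
        omega) h3
      have : cc * (a1 + a2 + a2) ≤ 4589 / 5000 + 0.77 := by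
        unfold cc a1 a2; norm_num
      linarith
    · have ht : t = 3 * m := by omega
      have g1 := gg_le_a2 hm (t := t) (i := 2 * m) (by omega)
      have g2 := gg_le_a2 hm (t := t) (i := 2 * m - 1) (by omega)
      have g3 := gg_le_a2 hm (t := t) (i := 2 * m - 2) (by omega)
      refine le_trans (add_le_add (add_le_add g1 g2) g3) ?_
      apply le_MM
      rw [hS, ht, sz6 le_rfl]
      unfold cc a2; norm_num
  · have g1 := gg_le_a1 (m := m) (t := t) (i := 3 * m) (by omega)
    have g2 := gg_le_a1 (m := m) (t := t) (i := 3 * m - 1) (by omega)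
    have g3 := gg_le_a1 (m := m) (t := t) (i := 3 * m - 2) (by omega)
    have g4 := gg_le_a1 (m := m) (t := t) (i := 3 * m - 3) (by omega)
    linarith [hM.1]

/-! ### The main argument -/

/-- `1.9178` is a lower bound. -/
theorem lower (hm : 10 ^ 5 ≤ m) {A : Alg m} {c : ℝ} (hA : IsCertified A c) : cc ≤ c := by
  by_contra hcon
  push Not at hcon
  have hm' := mreal hm
  have ha1 := a1_pos
  have ha2 := a2_pos
  -- every makespan is small
  have hmk : ∀ φ t : ℕ, (hist m (t + 1)).sum / m ≤ MM m φ t →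
      (∀ k, pigeon m k (hist m (t + 1)) ≤ MM m φ t) → 0 < MM m φ t →
      makespan A (hist m (t + 1)) < cc * MM m φ t := by
    intro φ t h1 h2 h0
    have hsum : 0 ≤ (hist m (t + 1)).sum / m :=
      div_nonneg (List.sum_nonneg (hist_nonneg hm _)) (by linarith)
    have hpig : ∀ k, 0 ≤ pigeon m k (hist m (t + 1)) := by
      intro k
      rw [pigeon_hist hm]
      apply Finset.sum_nonneg
      intro i _
      rcases lt_or_ge t ((k - 1) * m - i) with h3 | h3
      · rw [gg_zero h3]
      · rw [gg_eq h3]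
        exact (sz_pos hm _).le
    have key : ∀ x : ℝ, 0 ≤ x → x ≤ MM m φ t → c * x < cc * MM m φ t := by
      intro x hx0 hx
      rcases le_or_gt 0 c with hc | hc
      · exact lt_of_le_of_lt (mul_le_mul_of_nonneg_left hx hc) (mul_lt_mul_of_pos_right hcon h0)
      · have h5 : c * x ≤ 0 := mul_nonpos_of_nonpos_of_nonneg hc.le hx0
        have h6 := mul_pos cc_pos h0
        linarith
    rcases hA (hist m (t + 1)) (hist_nonneg hm _) with h3 | ⟨k, h3⟩
    · exact lt_of_le_of_lt h3 (key _ hsum h1)
    · exact lt_of_le_of_lt h3 (key _ (hpig k) (h2 k))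
  have hMpos : ∀ φ t : ℕ, 0 < MM m φ t := by
    intro φ t
    unfold MM
    have h1 := sz_pos hm t
    have h2 : 0 ≤ SS φ := by
      unfold SS
      split <;> first | exact ha1.le | norm_num
    exact div_pos (by linarith) cc_pos
  have key1 : ∀ t ≤ m, Inv A SS (hist m t) 1 := by
    intro t
    induction t with
    | zero =>
      intro _
      obtain ⟨n, h1, h2, h3⟩ := inv_nil A SS (by simp [SS])
      exact ⟨n, h1, fun i => le_trans (h2 i) (by norm_num), h3⟩
    | succ t ih =>
      intro ht
      have hc := avg1 hm (t := t) (by omega)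
      have hp := pig1 hm (t := t) (by omega)
      rw [hist]
      refine inv_step' le_rfl (ih (by omega)) (sz_pos hm t).le (hmk 1 t hc hp (hMpos _ _))
        (cc_mul_MM 1 t).le ?_
      intro k hk
      have hk0 : k = 0 := by omega
      subst hk0
      have := a1_le_sz hm t
      simp only [SS]
      linarith
  have key2 : ∀ k ≤ m, Inv A SS (hist m (m + k)) 2 := by
    intro k
    induction k with
    | zero =>
      intro _
      obtain ⟨n, h1, h2, h3⟩ := key1 m le_rfl
      exact ⟨n, h1, fun i => le_trans (h2 i) (by norm_num), h3⟩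
    | succ k ih =>
      intro ht
      have hc := avg2 hm (t := m + k) (by omega) (by omega)
      have hp := pig2 hm (t := m + k) (by omega) (by omega)
      rw [← add_assoc, hist]
      refine inv_step' le_rfl (ih (by omega)) (sz_pos hm _).le (hmk 2 _ hc hp (hMpos _ _))
        (cc_mul_MM 2 _).le ?_
      intro j hj
      have h5 := a2_le_sz hm (t := m + k) (by omega)
      have h6 := a1_le_sz hm (m + k)
      interval_cases j
      · simp only [SS]
        linarith
      · simp only [SS]
        have : (2089 / 5000 : ℝ) = a1 + a2 := by unfold a1 a2; ring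
        linarith
  have key3 : ∀ k ≤ m + 1, Inv A SS (hist m (2 * m + k)) 3 := by
    intro k
    induction k with
    | zero =>
      intro _
      obtain ⟨n, h1, h2, h3⟩ := key2 m le_rfl
      have e : m + m = 2 * m := by omega
      rw [e] at h1 h3
      exact ⟨n, h1, fun i => le_trans (h2 i) (by norm_num), h3⟩
    | succ k ih =>
      intro ht
      have hc := avg3 hm (t := 2 * m + k) (by omega) (by omega)
      have hp := pig3 hm (t := 2 * m + k) (by omega) (by omega)
      rw [← add_assoc, hist]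
      refine inv_step' le_rfl (ih (by omega)) (sz_pos hm _).le (hmk 3 _ hc hp (hMpos _ _))
        (cc_mul_MM 3 _).le ?_
      intro j hj
      have h5 := a2_le_sz hm (t := 2 * m + k) (by omega)
      have h6 := a1_le_sz hm (2 * m + k)
      have h7 := half_le_sz hm (t := 2 * m + k) (by omega)
      interval_cases j
      · simp only [SS]
        linarith
      · simp only [SS]
        have : (2089 / 5000 : ℝ) = a1 + a2 := by unfold a1 a2; ring
        linarith
      · simp only [SS]
        linarith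
  have hfin := key3 (m + 1) le_rfl
  refine inv_final hfin ?_
  rw [hist_length]
  omega

end MP_a18a3c_p66
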