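import Pool.Agent.W_MP_a18a3c_p66.Sizes

/-!
Monotonicity of the sizes and elementary facts on the instance.
-/

namespace MP_a18a3c_p66

open MP_a18a3c_h2

variable {m : ℕ}

lemma sz1 {t : ℕ} (h : t < m) : sz m t = a1 := by
  unfold sz
  rw [if_pos h]

lemma sz2 {t : ℕ} (h : m ≤ t) (h' : t < m + nu m) : sz m t = a2 := by
  unfold sz
  rw [if_neg (by omega), if_pos h']

lemma sz3 {t : ℕ} (h : m + nu m ≤ t) (h' : t < 2 * m) :
    sz m t = a2 * rr m ^ (t + 1 - (m + nu m)) := by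
  unfold sz
  rw [if_neg (by omega), if_neg (by omega), if_pos h']

lemma sz4 {t : ℕ} (h : 2 * m ≤ t) (h' : t < 2 * m + nu' m) : sz m t = 1 / 2 := by
  have := nu_le (m := m)
  unfold sz
  rw [if_neg (by omega), if_neg (by omega), if_neg (by omega), if_pos h']

lemma sz5 {t : ℕ} (h : 2 * m + nu' m ≤ t) (h' : t < 3 * m) :
    sz m t = 1 / 2 * rr m ^ (t + 1 - (2 * m + nu' m)) := by
  have := nu_le (m := m)
  unfold sz
  rw [if_neg (by omega), if_neg (by omega), if_neg (by omega), if_neg (by omega), if_pos h']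

lemma sz6 {t : ℕ} (h : 3 * m ≤ t) : sz m t = 1 := by
  have := nu_le (m := m)
  have := nu'_le_nu (m := m)
  unfold sz
  rw [if_neg (by omega), if_neg (by omega), if_neg (by omega), if_neg (by omega),
    if_neg (by omega)]

lemma a1_pos : 0 < a1 := by unfold a1; norm_num

lemma a2_pos : 0 < a2 := by unfold a2; norm_num

lemma one_le_pow (hm : 10 ^ 5 ≤ m) (k : ℕ) : 1 ≤ rr m ^ k := one_le_pow₀ (one_le_rr hm)

/-- Upper bound for the sizes of phases 1 and 2. -/
lemma sz_le2 (hm : 10 ^ 5 ≤ m) {t : ℕ} (h : t < 2 * m) : sz m t ≤ a2 * 1.1623 := by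
  have ha : a1 ≤ a2 * 1.1623 := by unfold a1 a2; norm_num
  have ha2 := a2_pos
  rcases lt_or_ge t m with h1 | h1
  · rw [sz1 h1]; exact ha
  rcases lt_or_ge t (m + nu m) with h2 | h2
  · rw [sz2 h1 h2]; linarith
  · rw [sz3 h2 h]
    exact mul_le_mul_of_nonneg_left (grow2 hm _ (by omega)) ha2.le

lemma sz_le1 (hm : 10 ^ 5 ≤ m) (t : ℕ) : sz m t ≤ 1 := by
  rcases lt_or_ge t (2 * m) with h1 | h1
  · refine le_trans (sz_le2 hm h1) ?_
    unfold a2; norm_num
  rcases lt_or_ge t (2 * m + nu' m) with h2 | h2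
  · rw [sz4 h1 h2]; norm_num
  rcases lt_or_ge t (3 * m) with h3 | h3
  · rw [sz5 h2 h3]
    have := grow3 hm (t + 1 - (2 * m + nu' m)) (by omega)
    linarith
  · rw [sz6 h3]

lemma sz_pos (hm : 10 ^ 5 ≤ m) (t : ℕ) : 0 < sz m t := by
  have ha1 := a1_pos
  have ha2 := a2_pos
  have hr := rr_pos hm
  rcases lt_or_ge t m with h1 | h1
  · rw [sz1 h1]; exact ha1
  rcases lt_or_ge t (m + nu m) with h2 | h2
  · rw [sz2 h1 h2]; exact ha2
  rcases lt_or_ge t (2 * m) with h3 | h3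
  · rw [sz3 h2 h3]; positivity
  rcases lt_or_ge t (2 * m + nu' m) with h4 | h4
  · rw [sz4 h3 h4]; norm_num
  rcases lt_or_ge t (3 * m) with h5 | h5
  · rw [sz5 h4 h5]; positivity
  · rw [sz6 h5]; norm_num

/-- Sizes from phase 2 on are at least `a2`. -/
lemma a2_le_sz (hm : 10 ^ 5 ≤ m) {t : ℕ} (h : m ≤ t) : a2 ≤ sz m t := by
  have ha2 := a2_pos
  have ha3 : a2 ≤ 1 / 2 := by unfold a2; norm_num
  rcases lt_or_ge t (m + nu m) with h2 | h2
  · rw [sz2 h h2]
  rcases lt_or_ge t (2 * m) with h3 | h3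
  · rw [sz3 h2 h3]
    have := one_le_pow hm (t + 1 - (m + nu m))
    nlinarith
  rcases lt_or_ge t (2 * m + nu' m) with h4 | h4
  · rw [sz4 h3 h4]; exact ha3
  rcases lt_or_ge t (3 * m) with h5 | h5
  · rw [sz5 h4 h5]
    have := one_le_pow hm (t + 1 - (2 * m + nu' m))
    linarith
  · rw [sz6 h5]; linarith

/-- Sizes of phase 3 are at least `1 / 2`. -/
lemma half_le_sz (hm : 10 ^ 5 ≤ m) {t : ℕ} (h : 2 * m ≤ t) : 1 / 2 ≤ sz m t := by
  rcases lt_or_ge t (2 * m + nu' m) with h4 | h4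
  · rw [sz4 h h4]
  rcases lt_or_ge t (3 * m) with h5 | h5
  · rw [sz5 h4 h5]
    have := one_le_pow hm (t + 1 - (2 * m + nu' m))
    linarith
  · rw [sz6 h5]; norm_num

lemma a1_le_sz (hm : 10 ^ 5 ≤ m) (t : ℕ) : a1 ≤ sz m t := by
  rcases lt_or_ge t m with h1 | h1
  · rw [sz1 h1]
  · refine le_trans ?_ (a2_le_sz hm h1)
    unfold a1 a2; norm_num

lemma sz_step (hm : 10 ^ 5 ≤ m) (t : ℕ) : sz m t ≤ sz m (t + 1) := by
  have hr := one_le_rr hm
  have ha2 := a2_pos
  rcases lt_or_ge t m with h1 | h1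
  · rw [sz1 h1]; exact a1_le_sz hm _
  rcases lt_or_ge t (m + nu m) with h2 | h2
  · rw [sz2 h1 h2]; exact a2_le_sz hm (by omega)
  rcases lt_or_ge t (2 * m) with h3 | h3
  · rcases lt_or_ge (t + 1) (2 * m) with h4 | h4
    · rw [sz3 h2 h3, sz3 (by omega) h4]
      apply mul_le_mul_of_nonneg_left _ ha2.le
      exact pow_le_pow_right₀ hr (by omega)
    · refine le_trans (sz_le2 hm h3) (le_trans ?_ (half_le_sz hm h4))
      unfold a2; norm_num
  rcases lt_or_ge t (2 * m + nu' m) with h4 | h4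
  · rw [sz4 h3 h4]; exact half_le_sz hm (by omega)
  rcases lt_or_ge t (3 * m) with h5 | h5
  · rcases lt_or_ge (t + 1) (3 * m) with h6 | h6
    · rw [sz5 h4 h5, sz5 (by omega) h6]
      apply mul_le_mul_of_nonneg_left _ (by norm_num)
      exact pow_le_pow_right₀ hr (by omega)
    · rw [sz6 h6]; exact sz_le1 hm _
  · rw [sz6 h5, sz6 (by omega)]

lemma sz_mono (hm : 10 ^ 5 ≤ m) : Monotone (sz m) := monotone_nat_of_le_succ (sz_step hm)

lemma hist_length (t : ℕ) : (hist m t).length = t := by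
  induction t with
  | zero => rfl
  | succ t ih => simp [hist, ih]

lemma mem_hist {t : ℕ} {p : ℝ} (h : p ∈ hist m t) : ∃ i < t, p = sz m i := by
  induction t with
  | zero => simp [hist] at h
  | succ t ih =>
    rw [hist, List.mem_cons] at h
    rcases h with h | h
    · exact ⟨t, by omega, h⟩
    · obtain ⟨i, hi, he⟩ := ih h
      exact ⟨i, by omega, he⟩

lemma hist_nonneg (hm : 10 ^ 5 ≤ m) (t : ℕ) : ∀ p ∈ hist m t, 0 ≤ p := by
  intro p hp
  obtain ⟨i, -, rfl⟩ := mem_hist hp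
  exact (sz_pos hm i).le

lemma hist_pairwise (hm : 10 ^ 5 ≤ m) (t : ℕ) : (hist m t).Pairwise (· ≥ ·) := by
  induction t with
  | zero => simp [hist]
  | succ t ih =>
    rw [hist, List.pairwise_cons]
    refine ⟨fun p hp => ?_, ih⟩
    obtain ⟨i, hi, rfl⟩ := mem_hist hp
    exact sz_mono hm hi.le

lemma sorted_hist (hm : 10 ^ 5 ≤ m) (t : ℕ) : sorted (hist m t) = hist m t :=
  (hist_pairwise hm t).insertionSort_eq

lemma hist_getD (t i : ℕ) (h : i < t) : (hist m t).getD i 0 = sz m (t - 1 - i) := by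
  induction t generalizing i with
  | zero => omega
  | succ t ih =>
    rw [hist]
    cases i with
    | zero => simp
    | succ i =>
      rw [List.getD_cons_succ, ih i (by omega)]
      congr 1
      omega

lemma hist_getD_zero (t i : ℕ) (h : t ≤ i) : (hist m t).getD i 0 = 0 := by
  apply List.getD_eq_default
  rw [hist_length]
  exact h

end MP_a18a3c_p66
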