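import Pool.Agent.W_MP_a18a3c_p66.Defs

/-!
The job sizes of the adversary and their numerical properties.
-/

namespace MP_a18a3c_p66

open MP_a18a3c_h2

/-- The ratio of the lower bound. -/
noncomputable def cc : ℝ := 9589 / 5000

/-- The smallest size of phase 1. -/
noncomputable def a1 : ℝ := 2089 / 5000 - 1 / 3

/-- The smallest size of phase 2. -/
noncomputable def a2 : ℝ := 1 / 3

/-- The growth factor. -/
noncomputable def rr (m : ℕ) : ℝ := (1 - cc / m)⁻¹

/-- Number of jobs of constant size in phase 2. -/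
def nu (m : ℕ) : ℕ := 92159 * m / 100000

/-- Number of jobs of constant size in phase 3. -/
def nu' (m : ℕ) : ℕ := 63882 * m / 100000

/-- The size of job number `t`, `t = 0, ..., 3 m`. -/
noncomputable def sz (m t : ℕ) : ℝ :=
  if t < m then a1
  else if t < m + nu m then a2
  else if t < 2 * m then a2 * rr m ^ (t + 1 - (m + nu m))
  else if t < 2 * m + nu' m then 1 / 2
  else if t < 3 * m then 1 / 2 * rr m ^ (t + 1 - (2 * m + nu' m))
  else 1

/-- The first `t` jobs, the most recent one first. -/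
noncomputable def hist (m : ℕ) : ℕ → List ℝ
  | 0 => []
  | t + 1 => sz m t :: hist m t

variable {m : ℕ}

lemma nu_le : nu m ≤ m := by unfold nu; omega

lemma nu'_le_nu : nu' m ≤ nu m := by unfold nu nu'; omega

lemma nu_real : (nu m : ℝ) ≤ 92159 / 100000 * m := by
  have h : 100000 * nu m ≤ 92159 * m := by unfold nu; omega
  have h' : (100000 : ℝ) * nu m ≤ 92159 * m := by exact_mod_cast h
  linarith

lemma nu'_real : (nu' m : ℝ) ≤ 63882 / 100000 * m := by
  have h : 100000 * nu' m ≤ 63882 * m := by unfold nu'; omega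
  have h' : (100000 : ℝ) * nu' m ≤ 63882 * m := by exact_mod_cast h
  linarith

lemma sub_nu_real : ((m - nu m : ℕ) : ℝ) ≤ 7841 / 100000 * m + 1 := by
  have h : 100000 * (m - nu m) ≤ 7841 * m + 100000 := by unfold nu; omega
  have h' : (100000 : ℝ) * ((m - nu m : ℕ) : ℝ) ≤ 7841 * m + 100000 := by exact_mod_cast h
  linarith

lemma sub_nu'_real : ((m - nu' m : ℕ) : ℝ) ≤ 36118 / 100000 * m + 1 := by
  have h : 100000 * (m - nu' m) ≤ 36118 * m + 100000 := by unfold nu'; omega
  have h' : (100000 : ℝ) * ((m - nu' m : ℕ) : ℝ) ≤ 36118 * m + 100000 := by exact_mod_cast h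
  linarith

lemma nu_sub_nu'_real : 28277 / 100000 * (m : ℝ) ≤ ((nu m - nu' m : ℕ) : ℝ) + 1 := by
  have h : 28277 * m ≤ 100000 * (nu m - nu' m) + 100000 := by unfold nu nu'; omega
  have h' : (28277 : ℝ) * m ≤ 100000 * ((nu m - nu' m : ℕ) : ℝ) + 100000 := by exact_mod_cast h
  linarith

/-- Assumption on the number of machines. -/
lemma mreal (hm : 10 ^ 5 ≤ m) : (100000 : ℝ) ≤ m := by
  calc (100000 : ℝ) = ((10 ^ 5 : ℕ) : ℝ) := by norm_num
    _ ≤ m := by exact_mod_cast hm

lemma cdiv_pos (hm : 10 ^ 5 ≤ m) : 0 < cc / (m : ℝ) := by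
  have := mreal hm
  unfold cc
  positivity

lemma cdiv_le (hm : 10 ^ 5 ≤ m) : cc / (m : ℝ) ≤ 2 / 100000 := by
  have := mreal hm
  unfold cc
  rw [div_le_div_iff₀ (by linarith) (by norm_num)]
  linarith

lemma rr_pos (hm : 10 ^ 5 ≤ m) : 0 < rr m := by
  unfold rr
  have := cdiv_le hm
  apply inv_pos.mpr
  linarith

/-- The recursion `r - 1 = r c / m`. -/
lemma rr_rec (hm : 10 ^ 5 ≤ m) : rr m - 1 = rr m * (cc / m) := by
  have h1 := cdiv_le hm
  have h : rr m * (1 - cc / m) = 1 := by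
    unfold rr
    exact inv_mul_cancel₀ (by linarith)
  linarith

lemma one_le_rr (hm : 10 ^ 5 ≤ m) : 1 ≤ rr m := by
  have := rr_rec hm
  have h2 := mul_pos (rr_pos hm) (cdiv_pos hm)
  linarith

lemma one_add_le_rr (hm : 10 ^ 5 ≤ m) : 1 + cc / m ≤ rr m := by
  have h := rr_rec hm
  have h1 := one_le_rr hm
  have h2 := cdiv_pos hm
  nlinarith

lemma rr_le_exp (hm : 10 ^ 5 ≤ m) : rr m ≤ Real.exp (cc / m * (1 + 3 / 100000)) := by
  have h1 := cdiv_pos hm
  have h2 := cdiv_le hm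
  set x := cc / (m : ℝ) with hx
  have h3 : 1 + x * (1 + 3 / 100000) ≤ Real.exp (x * (1 + 3 / 100000)) := by
    have := Real.add_one_le_exp (x * (1 + 3 / 100000))
    linarith
  refine le_trans ?_ h3
  have h : rr m * (1 - x) = 1 := by
    unfold rr
    exact inv_mul_cancel₀ (by linarith)
  have h4 : 1 ≤ (1 + x * (1 + 3 / 100000)) * (1 - x) := by nlinarith
  by_contra hcon
  push Not at hcon
  have h5 : (1 + x * (1 + 3 / 100000)) * (1 - x) < rr m * (1 - x) :=
    mul_lt_mul_of_pos_right hcon (by linarith)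
  linarith

lemma rr_pow_le_exp (hm : 10 ^ 5 ≤ m) (k : ℕ) (b : ℝ) (hk : (k : ℝ) ≤ b * m) :
    rr m ^ k ≤ Real.exp (b * cc * (1 + 3 / 100000)) := by
  have h0 := rr_pos hm
  have hm' := mreal hm
  calc rr m ^ k ≤ (Real.exp (cc / m * (1 + 3 / 100000))) ^ k :=
        pow_le_pow_left₀ h0.le (rr_le_exp hm) k
    _ = Real.exp (k * (cc / m * (1 + 3 / 100000))) := by rw [← Real.exp_nat_mul]
    _ ≤ Real.exp (b * cc * (1 + 3 / 100000)) := by
        apply Real.exp_le_exp.mpr
        have h1 : (k : ℝ) * (cc / m) ≤ b * cc := by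
          rw [mul_div_assoc', div_le_iff₀ (by linarith)]
          have : (0 : ℝ) ≤ cc := by unfold cc; norm_num
          nlinarith
        nlinarith

/-- Growth in phase 2. -/
lemma grow2 (hm : 10 ^ 5 ≤ m) (k : ℕ) (hk : k ≤ m - nu m) : rr m ^ k ≤ 1.1623 := by
  have hm' := mreal hm
  have h1 : (k : ℝ) ≤ 7842 / 100000 * m := by
    have : (k : ℝ) ≤ ((m - nu m : ℕ) : ℝ) := by exact_mod_cast hk
    have := sub_nu_real (m := m)
    linarith
  refine le_trans (rr_pow_le_exp hm k _ h1) ?_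
  have hx : (7842 / 100000 * cc * (1 + 3 / 100000) : ℝ) ≤ 0.1504 := by
    unfold cc; norm_num
  refine le_trans (Real.exp_le_exp.mpr hx) ?_
  have := Real.exp_bound' (x := (0.1504 : ℝ)) (by norm_num) (by norm_num) (n := 5) (by norm_num)
  refine le_trans this ?_
  norm_num [Finset.sum_range_succ, Nat.factorial]

/-- Growth in phase 3. -/
lemma grow3 (hm : 10 ^ 5 ≤ m) (k : ℕ) (hk : k ≤ m - nu' m) : rr m ^ k ≤ 1.99952 := by
  have hm' := mreal hm
  have h1 : (k : ℝ) ≤ 36119 / 100000 * m := by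
    have : (k : ℝ) ≤ ((m - nu' m : ℕ) : ℝ) := by exact_mod_cast hk
    have := sub_nu'_real (m := m)
    linarith
  refine le_trans (rr_pow_le_exp hm k _ h1) ?_
  have hlog := Real.log_two_gt_d9
  have hx : (36119 / 100000 * cc * (1 + 3 / 100000) : ℝ) ≤ Real.log 2 - 0.000245 := by
    have : (36119 / 100000 * cc * (1 + 3 / 100000) : ℝ) ≤ 0.6927 + 0.0001 := by
      unfold cc; norm_num
    linarith
  refine le_trans (Real.exp_le_exp.mpr hx) ?_
  rw [Real.exp_sub, Real.exp_log (by norm_num), div_le_iff₀ (Real.exp_pos _)]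
  have := Real.add_one_le_exp (0.000245 : ℝ)
  nlinarith

lemma exp_le_rr (hm : 10 ^ 5 ≤ m) : Real.exp (cc / m) ≤ rr m := by
  have h1 := cdiv_pos hm
  have h2 := cdiv_le hm
  set x := cc / (m : ℝ) with hx
  have h3 : 1 - x ≤ Real.exp (-x) := by
    have := Real.add_one_le_exp (-x)
    linarith
  rw [Real.exp_neg] at h3
  unfold rr
  rw [← hx, le_inv_comm₀ (Real.exp_pos _) (by linarith)]
  exact h3

/-- Lower bound for powers of the growth factor. -/
lemma quad_le_pow (hm : 10 ^ 5 ≤ m) (k : ℕ) (b : ℝ) (hb : 0 ≤ b) (hk : b * m ≤ k) :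
    1 + b * cc + (b * cc) ^ 2 / 2 ≤ rr m ^ k := by
  have hm' := mreal hm
  have hc : (0 : ℝ) ≤ cc := by unfold cc; norm_num
  have h0 : 0 ≤ b * cc := mul_nonneg hb hc
  have h1 : Real.exp (b * cc) ≤ rr m ^ k := by
    calc Real.exp (b * cc) ≤ Real.exp (k * (cc / m)) := by
          apply Real.exp_le_exp.mpr
          rw [mul_div_assoc', le_div_iff₀ (by linarith)]
          nlinarith
      _ = Real.exp (cc / m) ^ k := by rw [← Real.exp_nat_mul]
      _ ≤ rr m ^ k := pow_le_pow_left₀ (Real.exp_pos _).le (exp_le_rr hm) k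
  exact le_trans (Real.quadratic_le_exp_of_nonneg h0) h1

end MP_a18a3c_p66
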